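import Pool.Agent.Lib.MP_cea156_al.N.Main2
import Pool.Agent.Lib.MP_cea156_al.N.X3

/-!
# Quivers with a unique non-degenerate potential: the upper cluster algebra and two kinds of covers

Let `Q` be a finite quiver (any number of vertices) which has, up to right equivalence, exactly one non-degenerate potential. The upper cluster algebra is
contained in the cluster algebra as soon as, for some seed, the vertex set can be reduced to sets of at most three vertices by mutations, Muller's covers
(by two coprime cluster variables of a cluster) and the new determinantal covers (`RedX.det`); and for every vertex set `M` of any seed for which this reduction is possible,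
the same holds after inverting the cluster variables outside `M`.
-/

namespace Pool.Agent.Results.MP_cea156_al.Covers

open Cea Relation

theorem result {n : ℕ} (Q : Quiv (Fin n)) (hu : UniquePot Q) (s : Seed n (FractionRing (MvPolynomial (Fin n) ℂ)))
    (hs : Reach (initSeed Q.B) s) (M : Finset (Fin n)) (hM : RedX (fun M _ => M.card ≤ 3) M s.B) :
    upperAlg (initSeed Q.B) ≤ Algebra.adjoin ℂ
      ((clusterAlg (initSeed Q.B) : Set (FractionRing (MvPolynomial (Fin n) ℂ))) ∪ {z | ∃ i, i ∉ M ∧ z = (s.x i)⁻¹}) :=
  main_redX_loc (B_skew Q) (Cea.N.loc_of_unique hu) hs hM

end Pool.Agent.Results.MP_cea156_al.Covers
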