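import Pool.Agent.Lib.MP_cea156_al.N.X4

/-!
# A three parameter family of quivers with four vertices: the upper cluster algebra is the cluster algebra

For integers `k, c, l ≥ 1` let `Q` be the quiver with vertices `0, 1, 2, 3`, `k` arrows `1 → 0`, one arrow `0 → 2`, `0 → 3`, `2 → 1` each, `c` arrows `3 → 1` and `l` arrows
`3 → 2`. The upper cluster algebra of `Q` is contained in the cluster algebra (hence equal to it). The proof does not use relatively prime pairs of
cluster variables of one cluster (Muller's locally acyclic cluster algebras), but the identity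
`x₃' x₀₂ - x₁^(min(k, c) - 1) x₂' x₀₃ = 1 - x₁^(c - 1) x₂^l x₃^l`, where `x₂'`, `x₃'` are the new variables after mutation at `2`, `3`, and `x₀₂`, `x₀₃` are those after mutation at `0`
and then at `2`, `3`.
-/

namespace Pool.Agent.Results.MP_cea156_al.FamilyFour

open Cea Relation

theorem result (k c l : ℤ) (hk : 1 ≤ k) (hc : 1 ≤ c) (hl : 1 ≤ l) :
    upperAlg (initSeed (fam k c l)) ≤ clusterAlg (initSeed (fam k c l)) := by
  refine (main_redX (fam_skew k c l) (s := initSeed (fam k c l)) ReflTransGen.refl (fam_redX hk hc hl)).trans ?_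
  rw [Algebra.adjoin_le_iff]
  rintro z (hz | ⟨i, hi, -⟩)
  · exact hz
  · exact absurd (Finset.mem_univ i) hi

end Pool.Agent.Results.MP_cea156_al.FamilyFour
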