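import Pool.Agent.Lib.MP_cea156_al.N.Main2

/-!
# Quivers with a unique non-degenerate potential: subquivers with at most three vertices

Let `Q` be a finite quiver (any number of vertices) which has, up to right equivalence, exactly one non-degenerate
potential. Then, in the whole mutation class of `Q`, every full subquiver with at most three vertices is mutation-acyclic.
For quivers with at most three vertices this answers the question positively.

Method: the theory of Derksen, Weyman and Zelevinsky (splitting theorem, mutations of right equivalent quivers with potential are right
equivalent, mutation is an involution), non-degeneracy of all but countably many members of a polynomial family of potentials through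
a non-degenerate one, restriction to triangles; the triangles `(2, 2, 2)` and `(2, 3, 3)`, whose cubic parts have open orbits, are excluded by
the part of degree six.
-/

namespace Pool.Agent.Results.MP_cea156_al.LocalThree

open Cea Relation

theorem result {n : ℕ} (Q : Quiv (Fin n)) (hu : UniquePot Q) (B : Matrix (Fin n) (Fin n) ℤ)
    (hB : ReflTransGen (fun a b => ∃ k, b = mutB k a) Q.B B) (M : Finset (Fin n)) (hM : M.card ≤ 3) : MutAcycM M B :=
  Cea.N.loc_of_unique hu B hB M hM

end Pool.Agent.Results.MP_cea156_al.LocalThree
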