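import Pool.Agent.Lib.MP_cea156_al.N.Main2

/-!
# A unique non-degenerate potential is rigid

Let `Q` be a finite quiver which has, up to right equivalence, exactly one non-degenerate potential. Then every 2-acyclic quiver
`Q'` in the mutation class has exactly one non-degenerate potential too, and this potential `W` is rigid in the sense of Derksen, Weyman and Zelevinsky: every
potential on `Q'` is cyclically equivalent to an element of the Jacobian ideal of `W`, so that the deformation space of `W` is zero.

Method: by uniqueness all but countably many members of every polynomial family of potentials through `W` are right equivalent to `W`; hence the coefficients of the general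
right transform of `W` are algebraically independent in every degree, the differential of the action is surjective in every degree (at the general point, hence everywhere on the
orbit), and a compactness argument for linear equations in infinitely many unknowns (linearly compact spaces) passes to the limit.
-/

namespace Pool.Agent.Results.MP_cea156_al.Rigid

open Cea Relation

theorem result {n : ℕ} (Q : Quiv (Fin n)) (hu : UniquePot Q) (Q' : Quiv (Fin n)) (h2 : Q'.TwoAcyclic)
    (hB : ReflTransGen (fun a b => ∃ k, b = mutB k a) Q.B Q'.B) :
    UniquePot Q' ∧ ∀ (W : List Q'.A → ℂ) (hW : IsPot Q' W), Nondeg ⟨Q', W, hW⟩ →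
      ∀ Y : List Q'.A → ℂ, IsPot Q' Y → ∃ ξ : Q'.A → List Q'.A → ℂ,
        (∀ a w, ξ a w ≠ 0 → w ≠ [] ∧ Q'.IsPath (Q'.s a) w (Q'.t a)) ∧
        ∀ w, cyc (fun u => ∑ a, conv (ξ a) (fun v => cyc W (a :: v)) u) w = cyc Y w := by
  have hu' : UniquePot Q' := Cea.N.uniquePot_class hu h2 hB
  refine ⟨hu', fun W hW hn Y hY => ?_⟩
  obtain ⟨ξ, h1, h3⟩ := Cea.N.rigid hu' (W := W) hW hn (Y := Y) hY
  refine ⟨ξ, h1, fun w => ?_⟩
  have h4 := congrFun h3 w
  rw [← show Cea.N.cyc (R := ℂ) Y w = cyc Y w from rfl, ← h4]
  have h5 : (fun u => ∑ a, conv (ξ a) (fun v => cyc W (a :: v)) u) = (∑ a, ξ a * Cea.N.der a W : Cea.N.NC Q'.A ℂ) := by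
    funext u
    rw [Cea.N.finsetSum_apply]
    rfl
  rw [← h5]
  rfl

end Pool.Agent.Results.MP_cea156_al.Rigid
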